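import Mathlib
import Pool.Agent.W5d027a.Main

/-!
# Products of systems disjoint from all minimal systems (MP_5d027a_an)

If `(X, T)` and `(Y, S)` are disjoint from every minimal system, then so is `(X × Y, T × S)`.
-/

namespace Pool.Agent.Results.MP_5d027a_an.ProductDisjoint

open Set Topology
open Pool.Agent.W5d027a (IsMinSet DM)

universe u v

/-- `A` is invariant under the homeomorphism `T`: `T(A) = A`. -/
def IsInvariant {X : Type u} [TopologicalSpace X] (T : X ≃ₜ X) (A : Set X) : Prop :=
  T '' A = A

/-- The system `(X, T)` is minimal: `X` has no nonempty proper closed `T`-invariant subset. -/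
def IsMinimalSystem {X : Type u} [TopologicalSpace X] (T : X ≃ₜ X) : Prop :=
  ∀ A : Set X, IsClosed A → IsInvariant T A → A = ∅ ∨ A = univ

/-- Disjointness in the sense of Furstenberg: every closed `T × S`-invariant subset of `X × Y`
whose two coordinate projections are onto is the whole of `X × Y`. -/
def AreDisjoint {X : Type u} {Y : Type v} [TopologicalSpace X] [TopologicalSpace Y]
    (T : X ≃ₜ X) (S : Y ≃ₜ Y) : Prop :=
  ∀ J : Set (X × Y), IsClosed J → IsInvariant (T.prodCongr S) J →
    Prod.fst '' J = univ → Prod.snd '' J = univ → J = univ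

/-- The system `(X, T)` is disjoint from every minimal system `(Z, R)`, where `Z` is a nonempty
compact metric space and `R` is a homeomorphism of `Z`. -/
def DisjointFromMinimal {X : Type u} [TopologicalSpace X] (T : X ≃ₜ X) : Prop :=
  ∀ (Z : Type u) [MetricSpace Z] [CompactSpace Z] [Nonempty Z] (R : Z ≃ₜ Z),
    IsMinimalSystem R → AreDisjoint T R

lemma isInvariant_iff {X : Type u} [TopologicalSpace X] (T : X ≃ₜ X) (A : Set X) :
    IsInvariant T A ↔ ∀ x, T x ∈ A ↔ x ∈ A := by
  constructor
  · intro h x
    constructor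
    · intro hx
      rw [← h] at hx
      obtain ⟨y, hy, hxy⟩ := hx
      rwa [T.injective hxy] at hy
    · intro hx
      rw [← h]
      exact ⟨x, hx, rfl⟩
  · intro h
    ext x
    constructor
    · rintro ⟨y, hy, rfl⟩
      exact (h y).2 hy
    · intro hx
      exact ⟨T.symm x, (h _).1 (by simpa using hx), by simp⟩

/-- From the statement form to the ambient form. -/
lemma dm_of {X : Type u} [TopologicalSpace X] [CompactSpace X] (T : X ≃ₜ X)
    (hT : DisjointFromMinimal T) : DM T := by
  intro Ω _ _ _ G M hM J hJc hJi hJp x0 ω0 hω0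
  let _ : MetricSpace Ω := TopologicalSpace.metrizableSpaceMetric Ω
  have hcM : CompactSpace M := isCompact_iff_compactSpace.1 hM.closed.isCompact
  have hnM : Nonempty M := hM.nonempty.to_subtype
  let R : M ≃ₜ M := G.subtype (fun x => (hM.inv x).symm)
  have hRval : ∀ z : M, (R z).1 = G z.1 := fun z => rfl
  have hmin : IsMinimalSystem R := by
    intro A hAc hAi
    rcases A.eq_empty_or_nonempty with h | hne
    · exact Or.inl h
    · right
      rw [isInvariant_iff] at hAi
      have hA' : (Subtype.val '' A : Set Ω) = M := by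
        apply hM.min
        · rintro _ ⟨z, _, rfl⟩
          exact z.2
        · exact hM.closed.isClosedEmbedding_subtypeVal.isClosedMap A hAc
        · exact hne.image _
        · intro x
          constructor
          · rintro ⟨z, hz, hzx⟩
            have hx : x ∈ M := (hM.inv x).1 (hzx ▸ z.2)
            refine ⟨⟨x, hx⟩, ?_, rfl⟩
            rw [← hAi]
            have : R ⟨x, hx⟩ = z := Subtype.ext hzx.symm
            rwa [this]
          · rintro ⟨z, hz, rfl⟩
            exact ⟨R z, (hAi z).2 hz, rfl⟩
      ext z
      simp only [mem_univ, iff_true]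
      have : z.1 ∈ (Subtype.val '' A : Set Ω) := by rw [hA']; exact z.2
      obtain ⟨w, hw, hwz⟩ := this
      rwa [Subtype.ext hwz] at hw
  let J' : Set (X × M) := {p | (p.1, p.2.1) ∈ J}
  have hJ'c : IsClosed J' := hJc.preimage (by fun_prop)
  have hJ'i : ∀ p : X × M, (T.prodCongr R) p ∈ J' ↔ p ∈ J' := fun p => hJi (p.1, p.2.1)
  have hfst : Prod.fst '' J' = univ := by
    ext x
    simp only [mem_univ, iff_true]
    obtain ⟨ω, hω, h⟩ := hJp x
    exact ⟨(x, ⟨ω, hω⟩), h, rfl⟩
  have hsnd : Prod.snd '' J' = univ := by
    rcases hmin (Prod.snd '' J') ((hJ'c.isCompact.image continuous_snd).isClosed)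
      ((isInvariant_iff _ _).2
        (Pool.Agent.W5d027a.image_inv (T.prodCongr R) R Prod.snd (fun _ => rfl) hJ'i)) with h | h
    · exfalso
      obtain ⟨ω, hω, h'⟩ := hJp x0
      have : (⟨ω, hω⟩ : M) ∈ Prod.snd '' J' := ⟨(x0, ⟨ω, hω⟩), h', rfl⟩
      rw [h] at this
      exact this
    · exact h
  have hres := hT M R hmin J' hJ'c ((isInvariant_iff _ _).2 hJ'i) hfst hsnd
  have : ((x0, ⟨ω0, hω0⟩) : X × M) ∈ J' := by rw [hres]; trivial
  exact this

/-- From the ambient form to the statement form. -/
lemma of_dm {X : Type u} [TopologicalSpace X] (T : X ≃ₜ X) (hT : DM T) :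
    DisjointFromMinimal T := by
  intro Z _ _ _ R hR J hJc hJi hJ1 _
  have hM : IsMinSet R (univ : Set Z) := by
    apply IsMinSet.univ_of
    intro A hA hne hi
    rcases hR A hA ((isInvariant_iff _ _).2 hi) with h | h
    · exact absurd h hne.ne_empty
    · exact h
  have hres := hT Z R univ hM J hJc ((isInvariant_iff _ _).1 hJi) (fun x => by
    have : x ∈ Prod.fst '' J := by rw [hJ1]; trivial
    obtain ⟨p, hp, rfl⟩ := this
    exact ⟨p.2, trivial, hp⟩)
  ext p
  simp only [mem_univ, iff_true]
  exact hres p.1 p.2 trivial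

/-- **Products of systems disjoint from all minimal systems.** If `(X, T)` and `(Y, S)` are
disjoint from every minimal system, then so is the product system `(X × Y, T × S)`. -/
theorem result (X Y : Type u) [MetricSpace X] [CompactSpace X] [Nonempty X]
    [MetricSpace Y] [CompactSpace Y] [Nonempty Y] (T : X ≃ₜ X) (S : Y ≃ₜ Y)
    (hT : DisjointFromMinimal T) (hS : DisjointFromMinimal S) :
    DisjointFromMinimal (T.prodCongr S) :=
  of_dm _ (Pool.Agent.W5d027a.main T S (dm_of T hT) (dm_of S hS))

/-! ### The convention `T(A) ⊆ A` for invariance gives the same notions -/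

section Forward

variable {X : Type u} [TopologicalSpace X]

lemma iterate_image_subset (T : X ≃ₜ X) {A : Set X} (h : T '' A ⊆ A) (n : ℕ) :
    T^[n + 1] '' A ⊆ T^[n] '' A := by
  rintro _ ⟨x, hx, rfl⟩
  exact ⟨T x, h ⟨x, hx, rfl⟩, rfl⟩

lemma isInvariant_iInter (T : X ≃ₜ X) {A : Set X} (h : T '' A ⊆ A) :
    IsInvariant T (⋂ n : ℕ, T^[n] '' A) := by
  have hs : ∀ (n : ℕ) (x : X), T (T^[n] x) = T^[n + 1] x :=
    fun n x => (Function.iterate_succ_apply' _ _ _).symm
  rw [isInvariant_iff]
  intro x
  simp only [mem_iInter]
  constructor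
  · intro hx n
    obtain ⟨y, hy, hxy⟩ := hx (n + 1)
    rw [← hs] at hxy
    exact ⟨y, hy, T.injective hxy⟩
  · intro hx n
    apply iterate_image_subset T h n
    obtain ⟨y, hy, rfl⟩ := hx n
    exact ⟨y, hy, (hs n y).symm⟩

lemma isClosed_iterate_image (T : X ≃ₜ X) {A : Set X} (h : IsClosed A) (n : ℕ) :
    IsClosed (T^[n] '' A) := by
  induction n with
  | zero => simpa using h
  | succ n ih =>
    rw [Function.iterate_succ', image_comp]
    exact T.isClosedMap _ ih

/-- Minimality may be tested on forward invariant sets. -/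
theorem isMinimalSystem_iff_forward [CompactSpace X] (T : X ≃ₜ X) :
    IsMinimalSystem T ↔ ∀ A : Set X, IsClosed A → T '' A ⊆ A → A = ∅ ∨ A = univ := by
  constructor
  · intro h A hA hAT
    rcases A.eq_empty_or_nonempty with h0 | hne
    · exact Or.inl h0
    · right
      rcases h (⋂ n : ℕ, T^[n] '' A) (isClosed_iInter (isClosed_iterate_image T hA))
        (isInvariant_iInter T hAT) with h1 | h1
      · exfalso
        have := IsCompact.nonempty_iInter_of_sequence_nonempty_isCompact_isClosed
          (fun n : ℕ => T^[n] '' A) (iterate_image_subset T hAT) (fun n => hne.image _)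
          (isClosed_iterate_image T hA 0).isCompact (isClosed_iterate_image T hA)
        exact this.ne_empty h1
      · apply eq_univ_of_univ_subset
        rw [← h1]
        intro x hx
        rw [mem_iInter] at hx
        simpa using hx 0
  · intro h A hA hAT
    exact h A hA hAT.subset

/-- Disjointness may be tested on forward invariant sets. -/
theorem areDisjoint_iff_forward [CompactSpace X] [T2Space X] {Y : Type v} [TopologicalSpace Y]
    [CompactSpace Y] [T2Space Y] (T : X ≃ₜ X) (S : Y ≃ₜ Y) :
    AreDisjoint T S ↔ ∀ J : Set (X × Y), IsClosed J → (T.prodCongr S) '' J ⊆ J →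
      Prod.fst '' J = univ → Prod.snd '' J = univ → J = univ := by
  constructor
  · intro h J hJ hJT h1 h2
    have hit : ∀ (n : ℕ) (p : X × Y), (T.prodCongr S)^[n] p = (T^[n] p.1, S^[n] p.2) := by
      intro n
      induction n with
      | zero => intro p; rfl
      | succ n ih =>
        intro p
        rw [Function.iterate_succ_apply, ih]
        rfl
    have hTs : ∀ n : ℕ, Function.Surjective T^[n] := fun n => T.surjective.iterate n
    have hSs : ∀ n : ℕ, Function.Surjective S^[n] := fun n => S.surjective.iterate n
    have hcl := isClosed_iterate_image (T.prodCongr S) hJ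
    have hres := h (⋂ n : ℕ, (T.prodCongr S)^[n] '' J) (isClosed_iInter hcl)
      (isInvariant_iInter _ hJT) ?_ ?_
    · apply eq_univ_of_univ_subset
      rw [← hres]
      intro x hx
      rw [mem_iInter] at hx
      simpa using hx 0
    · apply eq_univ_of_forall
      intro x
      have := IsCompact.nonempty_iInter_of_sequence_nonempty_isCompact_isClosed
        (fun n : ℕ => ((T.prodCongr S)^[n] '' J) ∩ {p | p.1 = x})
        (fun n => inter_subset_inter_left _ (iterate_image_subset _ hJT n))
        (fun n => ?_)
        ((hcl 0).inter (isClosed_eq continuous_fst continuous_const)).isCompact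
        (fun n => (hcl n).inter (isClosed_eq continuous_fst continuous_const))
      · obtain ⟨p, hp⟩ := this
        rw [mem_iInter] at hp
        exact ⟨p, mem_iInter.2 fun n => (hp n).1, (hp 0).2⟩
      · obtain ⟨x', rfl⟩ := hTs n x
        have hx' : x' ∈ Prod.fst '' J := by rw [h1]; trivial
        obtain ⟨p, hp, rfl⟩ := hx'
        refine ⟨(T.prodCongr S)^[n] p, ⟨p, hp, rfl⟩, ?_⟩
        rw [hit]; rfl
    · apply eq_univ_of_forall
      intro y
      have := IsCompact.nonempty_iInter_of_sequence_nonempty_isCompact_isClosed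
        (fun n : ℕ => ((T.prodCongr S)^[n] '' J) ∩ {p | p.2 = y})
        (fun n => inter_subset_inter_left _ (iterate_image_subset _ hJT n))
        (fun n => ?_)
        ((hcl 0).inter (isClosed_eq continuous_snd continuous_const)).isCompact
        (fun n => (hcl n).inter (isClosed_eq continuous_snd continuous_const))
      · obtain ⟨p, hp⟩ := this
        rw [mem_iInter] at hp
        exact ⟨p, mem_iInter.2 fun n => (hp n).1, (hp 0).2⟩
      · obtain ⟨y', rfl⟩ := hSs n y
        have hy' : y' ∈ Prod.snd '' J := by rw [h2]; trivial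
        obtain ⟨p, hp, rfl⟩ := hy'
        refine ⟨(T.prodCongr S)^[n] p, ⟨p, hp, rfl⟩, ?_⟩
        rw [hit]; rfl
  · intro h J hJ hJT
    exact h J hJ hJT.subset

end Forward

end Pool.Agent.Results.MP_5d027a_an.ProductDisjoint
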